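import Pool.Agent.Y877.FThm
import Pool.Agent.H141R2.FS.Main1

set_option autoImplicit false

/-!
# Four squares: almost all dilations of the quadruple `p - 2, p, p + 4, p + 10`

A number `p` is represented by `n` if `p = x + 2 y + 5 z` for some natural numbers with
`n = x² + y² + z² + w²`. There is an absolute constant `c > 0` with the following property. Let
`m 0, ..., m (T - 1)` be distinct natural numbers and `(4 - c) M < T`, and `ε > 0`. There is `C` such that for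
all `q ≥ 1`, `η > 0`, all large `n` not divisible by `4` and all `a` prime to `q`, the following holds for all
but a proportion `ε` of the `d` in each of the sets below: there are `M + 1` of the `m i` such that for ALL
pairs of these, `p` and `p + (m j - m i) d` are both primes, `≡ a (mod q)` and represented by `n`, for at least
`n ^ (1/2 - η)` of the `p`. The sets are

1. `{q k : k ∈ F}`, `F` any finite set which is almost invariant (up to `|F| / C` elements) under the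
   multiplication by the numbers up to `C`;
2. `{q k : k ∣ N}`, `N` any multiple of `C`;
3. `{q b k : u < k ≤ u + H}`, `H ≥ C`, where `b m 0, ..., b m (T - 1)` do not occupy all the classes modulo any
   prime.

For `T = 4`, `M = 1`, `m = (0, 1, 3, 6)` and `b = 2`: for almost all `k` two of the four numbers
`p - 2 k`, `p`, `p + 4 k`, `p + 10 k` are primes and represented by `n`, for at least `n ^ (1/2 - η)` numbers `p`
(the two places depend on `k` and `n` only).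
-/

namespace Pool.Agent.Results.MP_40574a_nt.AlmostAllDilations

open Finset Filter

/-- `p = x + 2 y + 5 z` with `n = x² + y² + z² + w²`. -/
def Represented (n p : ℕ) : Prop :=
  ∃ x y z w : ℕ, n = x ^ 2 + y ^ 2 + z ^ 2 + w ^ 2 ∧ p = x + 2 * y + 5 * z

/-- The number of the `p ≡ a (mod q)` for which `p` and `p + d` are primes and represented by `n`. -/
noncomputable def pairs (n q a d : ℕ) : ℕ :=
  {p : ℕ | p.Prime ∧ (p + d).Prime ∧ p ≡ a [MOD q] ∧ Represented n p ∧ Represented n (p + d)}.ncard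

/-- There are `M + 1` of the numbers `m i` such that for all differences `m j - m i > 0` between two of
them at least `n ^ (1/2 - η)` numbers `p ≡ a (mod q)` are such that `p` and `p + (m j - m i) d` are primes and
represented by `n`. -/
def Good {T : ℕ} (m : Fin T → ℕ) (M : ℕ) (η : ℝ) (n q a d : ℕ) : Prop :=
  ∃ S : Finset (Fin T), M + 1 ≤ S.card ∧ ∀ i ∈ S, ∀ j ∈ S, m i < m j →
    (n : ℝ) ^ (1 / 2 - η) ≤ pairs n q a ((m j - m i) * d)

/-- `F` is almost invariant under the multiplication by the numbers up to `C`. -/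
def AInv (C : ℕ) (F : Finset ℕ) : Prop :=
  ∀ k, 1 ≤ k → k ≤ C → C * (F.filter (fun n => k * n ∉ F)).card ≤ F.card

theorem finite_rep (n q a d : ℕ) :
    {p : ℕ | p.Prime ∧ (p + d).Prime ∧ p ≡ a [MOD q] ∧ Represented n p ∧
      Represented n (p + d)}.Finite := by
  refine (Set.finite_Iic (8 * n)).subset ?_
  rintro p ⟨-, -, -, ⟨x, y, z, w, hn, hp⟩, -⟩
  rw [Set.mem_Iic]
  have hx : x ≤ x ^ 2 := Nat.le_self_pow (by norm_num) x
  have hy : y ≤ y ^ 2 := Nat.le_self_pow (by norm_num) y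
  have hz : z ≤ z ^ 2 := Nat.le_self_pow (by norm_num) z
  omega

theorem rep_of {n p : ℕ} (h4 : ¬ 4 ∣ n) (hp : p.Prime) (h5 : 5 < p) (h1 : 29 * n ≤ p ^ 2)
    (h2 : p ^ 2 ≤ 30 * n) : Represented n p := by
  have hc : Nat.Coprime p 30 := by
    rw [Nat.Prime.coprime_iff_not_dvd hp]
    intro h
    have h6 : p ∈ Nat.primeFactors 30 := Nat.mem_primeFactors.mpr ⟨hp, h, by norm_num⟩
    have h7 : Nat.primeFactors 30 = {2, 3, 5} := by
      rw [show (30 : ℕ) = 2 * 3 * 5 by norm_num,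
        Nat.primeFactors_mul (by norm_num) (by norm_num), Nat.primeFactors_mul (by norm_num)
        (by norm_num), Nat.Prime.primeFactors (by norm_num), Nat.Prime.primeFactors (by norm_num),
        Nat.Prime.primeFactors (by norm_num)]
      rfl
    rw [h7] at h6
    simp only [mem_insert, mem_singleton] at h6
    omega
  obtain ⟨x, y, z, w, h3, h6⟩ := Pool.Agent.H141R2.FS.rep h4 hc h1 h2
  exact ⟨x, y, z, w, h3, h6.symm⟩

/-- the scale -/
def sc (n : ℕ) : ℕ := Nat.sqrt (29 * n) + 1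

theorem sc_tendsto : Tendsto sc atTop atTop := by
  rw [tendsto_atTop]
  intro b
  filter_upwards [eventually_ge_atTop (b * b)] with n hn
  unfold sc
  have : b ≤ Nat.sqrt (29 * n) := Nat.le_sqrt.mpr (by nlinarith)
  omega

theorem sc_sq (n : ℕ) : 29 * n ≤ sc n ^ 2 := by
  unfold sc
  have := (Nat.lt_succ_sqrt' (29 * n)).le
  exact this

theorem sc_up : ∀ᶠ n : ℕ in atTop, ((1 + 1 / 100 : ℝ) * (sc n : ℝ)) ^ (2 : ℕ) ≤ 30 * (n : ℝ) := by
  filter_upwards [eventually_ge_atTop 100000] with n hn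
  have h1 : (Nat.sqrt (29 * n) : ℝ) ≤ √((29 * n : ℕ) : ℝ) := Real.nat_sqrt_le_real_sqrt
  have hn' : (100000 : ℝ) ≤ n := by exact_mod_cast hn
  have h2 : √((29 * n : ℕ) : ℝ) * √((29 * n : ℕ) : ℝ) = 29 * n := by
    rw [Real.mul_self_sqrt (by positivity)]; push_cast; ring
  set t : ℝ := √((29 * n : ℕ) : ℝ) with ht
  have ht0 : 0 ≤ t := Real.sqrt_nonneg _
  have h3 : (sc n : ℝ) ≤ t + 1 := by
    unfold sc
    push_cast
    linarith
  have hs0 : (0 : ℝ) ≤ sc n := by positivity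
  have h4 : (1700 : ℝ) ≤ t := by
    by_contra hcon
    push Not at hcon
    nlinarith
  have h6 : 30 * (n : ℝ) = 30 / 29 * (t * t) := by rw [h2]; ring
  have h7 : 1700 * t ≤ t * t := mul_le_mul_of_nonneg_right h4 ht0
  calc ((1 + 1 / 100 : ℝ) * (sc n : ℝ)) ^ (2 : ℕ) ≤ ((1 + 1 / 100 : ℝ) * (t + 1)) ^ (2 : ℕ) := by
        gcongr
    _ = (10201 / 10000 : ℝ) * (t * t) + 2 * (10201 / 10000) * t + 10201 / 10000 := by ring
    _ ≤ 30 * (n : ℝ) := by rw [h6]; linarith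

theorem twins_le {n : ℕ} (h4 : ¬ 4 ∣ n) (hup : ((1 + 1 / 100 : ℝ) * (sc n : ℝ)) ^ (2 : ℕ) ≤ 30 * (n : ℝ))
    (h5 : 5 < sc n) (q a d : ℕ) :
    Pool.Agent.Y877.twins (1 / 100) (sc n) q a d ≤ pairs n q a d := by
  refine Set.ncard_le_ncard ?_ (finite_rep n q a d)
  rintro p ⟨hp, hpd, ha, hx, hxd⟩
  have hx' : sc n ≤ p := by exact_mod_cast hx
  have h29 := sc_sq n
  have hpd2 : (p + d) ^ 2 ≤ 30 * n := by
    have h1 : (((p + d : ℕ) : ℝ)) ^ 2 ≤ 30 * n := by
      refine le_trans ?_ hup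
      gcongr
    exact_mod_cast h1
  have h1 : 29 * n ≤ p ^ 2 := h29.trans (Nat.pow_le_pow_left hx' 2)
  have h2 : p ^ 2 ≤ (p + d) ^ 2 := Nat.pow_le_pow_left (Nat.le_add_right _ _) 2
  exact ⟨hp, hpd, ha, rep_of h4 hp (by omega) h1 (h2.trans hpd2),
    rep_of h4 hpd (by omega) (h1.trans h2) hpd2⟩

theorem pow_sc {n : ℕ} (hn : 1 ≤ n) {η : ℝ} (hη : 0 < η) :
    (n : ℝ) ^ (1 / 2 - η) ≤ (sc n : ℝ) ^ (1 - min η 1) := by
  have h1 : (n : ℝ) ≤ (sc n : ℝ) ^ 2 := by
    have h2 := sc_sq n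
    have h3 : n ≤ sc n ^ 2 := by omega
    exact_mod_cast h3
  have hn1 : (1 : ℝ) ≤ n := by exact_mod_cast hn
  have hs0 : (0 : ℝ) ≤ sc n := by positivity
  have hm0 : 0 < min η 1 := lt_min hη one_pos
  have hm1 : min η 1 ≤ 1 := min_le_right _ _
  have hmη : min η 1 ≤ η := min_le_left _ _
  calc (n : ℝ) ^ (1 / 2 - η) ≤ (n : ℝ) ^ ((1 - min η 1) / 2) :=
        Real.rpow_le_rpow_of_exponent_le hn1 (by linarith)
    _ ≤ ((sc n : ℝ) ^ 2) ^ ((1 - min η 1) / 2) :=
        Real.rpow_le_rpow (by positivity) h1 (by linarith)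
    _ = (sc n : ℝ) ^ (1 - min η 1) := by
        rw [← Real.rpow_natCast, ← Real.rpow_mul hs0]
        congr 1
        push_cast
        ring

theorem good_of {T : ℕ} {m : Fin T → ℕ} {M : ℕ} {η : ℝ} (hη : 0 < η) {n : ℕ} (hn : 1 ≤ n)
    (h4 : ¬ 4 ∣ n) (hup : ((1 + 1 / 100 : ℝ) * (sc n : ℝ)) ^ (2 : ℕ) ≤ 30 * (n : ℝ)) (h5 : 5 < sc n) {q a d : ℕ}
    (h : Pool.Agent.Y877.Clique m M (1 / 100) (min η 1) (sc n) q a d) : Good m M η n q a d := by
  obtain ⟨S, hS, h⟩ := h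
  refine ⟨S, hS, fun i hi j hj hij => ?_⟩
  refine ((pow_sc hn hη).trans (h i hi j hj hij)).trans ?_
  exact_mod_cast twins_le h4 hup h5 q a _

open Classical in
theorem result : ∃ c : ℝ, 0 < c ∧ c < 1 ∧ ∀ T M : ℕ, 1 ≤ T → (4 - c) * M < T →
    ∀ m : Fin T → ℕ, Function.Injective m → ∀ ε : ℝ, 0 < ε → ∃ C : ℕ, 1 ≤ C ∧
    ∀ q : ℕ, 1 ≤ q → ∀ η : ℝ, 0 < η →
    ∃ n₀ : ℕ, ∀ n : ℕ, n₀ ≤ n → ¬ 4 ∣ n → ∀ a : ℕ, a.Coprime q →
    -- 1. almost invariant sets
    (∀ F : Finset ℕ, AInv C F → (∀ k ∈ F, 1 ≤ k ∧ (C * (q ^ 2 * k)) ^ 2 ≤ n) →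
      (1 - ε) * (F.card : ℝ) ≤ ((F.filter (fun k => Good m M η n q a (q * k))).card : ℝ)) ∧
    -- 2. divisors
    (∀ N : ℕ, 1 ≤ N → C ∣ N → (C * (q ^ 2 * N)) ^ 2 ≤ n →
      (1 - ε) * (N.divisors.card : ℝ) ≤
        ((N.divisors.filter (fun k => Good m M η n q a (q * k))).card : ℝ)) ∧
    -- 3. windows
    (∀ b : ℕ, 1 ≤ b → (∀ p : ℕ, p.Prime → ∃ r : ℤ, ∀ i, ¬ (p : ℤ) ∣ b * m i + r) →
      ∀ u H : ℕ, C ≤ H → (C * (q ^ 2 * b * (u + H))) ^ 2 ≤ n →
      (1 - ε) * (H : ℝ) ≤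
        (((Ioc u (u + H)).filter (fun k : ℕ => Good m M η n q a (q * b * k))).card : ℝ)) := by
  obtain ⟨c, hc, hc1, HC⟩ := Pool.Agent.Y877.almostAll3
  refine ⟨c, hc, hc1, fun T M hT hTM m hm ε hε => ?_⟩
  obtain ⟨C, hC1, hC⟩ := HC T M hT hTM m hm ε (1 / 100) hε (by norm_num)
  refine ⟨C, hC1, fun q hq η hη => ?_⟩
  have hm0 : 0 < min η 1 := lt_min hη one_pos
  have hev := (sc_tendsto.eventually (hC q hq (min η 1) hm0)).and
    (sc_up.and ((sc_tendsto.eventually (eventually_gt_atTop 5)).and (eventually_ge_atTop 1)))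
  obtain ⟨n₀, hn₀⟩ := eventually_atTop.mp hev
  refine ⟨n₀, fun n hn h4 a ha => ?_⟩
  obtain ⟨hmain, hup, h5, hn1⟩ := hn₀ n hn
  obtain ⟨h1, h2, h3⟩ := hmain a ha
  have hle : ∀ t : ℕ, t ^ 2 ≤ n → t ≤ sc n := by
    intro t ht
    have h6 : t ^ 2 ≤ sc n ^ 2 := by
      have := sc_sq n
      omega
    exact (Nat.pow_le_pow_iff_left (by norm_num)).mp h6
  have hgood : ∀ d : ℕ, Pool.Agent.Y877.Clique m M (1 / 100) (min η 1) (sc n) q a d →
      Good m M η n q a d := fun d h => good_of hη hn1 h4 hup h5 h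
  have hcard : ∀ (A : Finset ℕ) (f : ℕ → ℕ),
      ((A.filter (fun k => Pool.Agent.Y877.Clique m M (1 / 100) (min η 1) (sc n) q a (f k))).card : ℝ) ≤
        ((A.filter (fun k => Good m M η n q a (f k))).card : ℝ) := by
    intro A f
    have : (A.filter (fun k => Pool.Agent.Y877.Clique m M (1 / 100) (min η 1) (sc n) q a (f k))).card ≤
        (A.filter (fun k => Good m M η n q a (f k))).card := by
      apply card_le_card
      intro k hk
      rw [mem_filter] at hk ⊢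
      exact ⟨hk.1, hgood _ hk.2⟩
    exact_mod_cast this
  refine ⟨fun F hF hFn => ?_, fun N hN hCN hNn => ?_, fun b hb hadm u H hCH hHn => ?_⟩
  · exact (h1 F hF fun k hk => ⟨(hFn k hk).1, hle _ (hFn k hk).2⟩).trans
      (hcard F fun k => q * k)
  · exact (h2 N hN hCN (hle _ hNn)).trans (hcard N.divisors fun k => q * k)
  · exact (h3 b hb hadm u H hCH (hle _ hHn)).trans (hcard (Ioc u (u + H)) fun k => q * b * k)

end Pool.Agent.Results.MP_40574a_nt.AlmostAllDilations
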