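import Mathlib
import Pool.Agent.X28.SX.StepG
import Pool.Agent.Results.MP_40574a_nt.ChenQuadruple

/-!
# Four squares and prime quadruples, for almost all shifts congruent to `-2, 4, 10`

For every large `n` which is not divisible by `4` and almost all vectors `g` the numbers `p - 2 + M g_1`, `p`,
`p + 4 + M g_2`, `p + 10 + M g_3` are prime for the expected number of values `p = x + 2 y + 5 z` at representations
`n = x² + y² + z² + w²`; here `M` is a small primorial, and `p` may even be restricted to any dense set, for instance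
to the `p` for which `p - 2`, `p + 4`, `p + 10` are almost primes.
-/

set_option autoImplicit false

open Finset Filter

namespace Pool.Agent.Results.MP_40574a_nt.AlmostAllShiftVectors

/-- the product of `1 - 1/q` over the primes `q ≤ y` -/
noncomputable def V (y : ℕ) : ℝ := ∏ q ∈ (Icc 1 y).filter Nat.Prime, (1 - 1 / (q : ℝ))

/-- `p` is the value of `x + 2 y + 5 z` at a representation of `n` as a sum of four squares of
natural numbers -/
def Val (n p : ℕ) : Prop :=
  ∃ x y z w : ℕ, n = x ^ 2 + y ^ 2 + z ^ 2 + w ^ 2 ∧ p = x + 2 * y + 5 * z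

/-- `P` consists of primes between `√(29 n)` and `√(30 n)`, and no number `p + c i` with `p ∈ P` has a prime factor
`≤ y` -/
def Fine (n y : ℕ) {r : ℕ} (c : Fin r → ℤ) (P : Finset ℕ) : Prop :=
  ∀ p ∈ P, p.Prime ∧ 29 * n ≤ p ^ 2 ∧ p ^ 2 ≤ 30 * n ∧
    ∀ i, ∀ l : ℕ, l.Prime → l ≤ y → ¬ (l : ℤ) ∣ (p : ℤ) + c i

open Classical in
/-- the `p ∈ P` which are values of `x + 2 y + 5 z` at a representation of `n` and for which all the numbers
`p + c i + t i`, `i < r`, are prime -/
noncomputable def Good (n : ℕ) {r : ℕ} (c : Fin r → ℤ) (P : Finset ℕ) (t : Fin r → ℕ) : Finset ℕ :=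
  P.filter (fun p => Val n p ∧ ∀ i, ((p : ℤ) + c i + t i).toNat.Prime)

/-- the quadruple of the problem -/
def quad : Fin 3 → ℤ := ![-2, 4, 10]

open Classical in
/-- (1) For all `r`, `A`, `C` and `0 < ε ≤ 1` there is `K₀` such that for every `K₁` and every large `n` with `4 ∤ n`,
with `X = ⌊√(30 n)⌋`, every `y` between `K₀ log log X` and `K₁ log log X`, with `M` the product of the primes `≤ y`, all
windows with `M (g₀ i + G i) ≤ X`, `G i ≥ X / (M log ^ C X)`, all integers `|c i| ≤ X / 2` and every set `P` of at least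
`X / log ^ A X` primes between `√(29 n)` and `√(30 n)` for which no `p + c i` has a prime factor `≤ y`: for all but at
most `ε ∏ G i` of the vectors `g ∈ ∏ [1, G i]` all numbers `p + c i + M (g₀ i + g i)` are prime for at least
`(1 - ε) #P / (V y log X) ^ r` of the `p ∈ P` which are values of `x + 2 y + 5 z` at a representation
`n = x² + y² + z² + w²`.
(2) For some `t` and `κ > 0` and every `j`, this applies to `r = 3`, `c = (-2, 4, 10)`, `A = 5` and the set `P` of the
primes `p` such that `p - 2`, `p + 4`, `p + 10` are products of at most `t` primes `> X ^ (1/t)` and the `j`-th of them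
of at most two primes, which has at least `κ X / log ^ 4 n` elements. -/
theorem result :
    (∀ (r A C : ℕ) (ε : ℝ), 0 < ε → ε ≤ 1 → ∃ K₀ : ℕ, ∀ K₁ : ℕ, ∃ n₀ : ℕ, ∀ n : ℕ, n₀ ≤ n → ¬ 4 ∣ n →
      ∀ X : ℕ, X = Nat.sqrt (30 * n) →
      ∀ y : ℕ, K₀ * Real.log (Real.log X) ≤ y → y ≤ K₁ * Real.log (Real.log X) →
      ∀ g₀ G : Fin r → ℕ, (∀ i, primorial y * (g₀ i + G i) ≤ X) → (∀ i, (X : ℝ) ≤ primorial y * G i * Real.log X ^ C) →
      ∀ c : Fin r → ℤ, (∀ i, 2 * |c i| ≤ X) → ∀ P : Finset ℕ, Fine n y c P → (X : ℝ) ≤ P.card * Real.log X ^ A →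
        (((Fintype.piFinset (fun i => Icc 1 (G i))).filter (fun g : Fin r → ℕ =>
          ((Good n c P (fun i => primorial y * (g₀ i + g i))).card : ℝ) <
            (1 - ε) * (P.card / (V y * Real.log X) ^ r))).card : ℝ) ≤ ε * ∏ i, (G i : ℝ)) ∧
    (∃ t : ℕ, 1 ≤ t ∧ ∃ κ : ℝ, 0 < κ ∧ ∀ K₁ : ℕ, ∃ n₀ : ℕ, ∀ n : ℕ, n₀ ≤ n → ¬ 4 ∣ n → ∀ X : ℕ, X = Nat.sqrt (30 * n) →
      ∀ y : ℕ, y ≤ K₁ * Real.log (Real.log X) → ∀ j : Fin 3,
        ∀ P : Finset ℕ, P = ChenQuadruple.P t n j (Nat.sqrt (29 * n) + 1) X →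
          Fine n y quad P ∧ κ * X / Real.log n ^ 4 ≤ P.card ∧ (X : ℝ) ≤ P.card * Real.log X ^ 5) := by
  classical
  constructor
  · intro r A C ε hε hε1
    obtain ⟨K₀, hK₀⟩ := Pool.Agent.X28.SX.stepGL r (fun _ => 1) (fun _ => Or.inl rfl) A 1 C ε hε hε1
    refine ⟨K₀, fun K₁ => ?_⟩
    obtain ⟨n1, hn1⟩ := hK₀ K₁
    obtain ⟨n3, hn3⟩ := Pool.Agent.H373R2.T7.ev_L' 2
    refine ⟨max 100 (max (n1 ^ 2) (n3 ^ 2)), fun n hn h4 X hX y hy1 hy2 g₀ G hw hG c hc P hP hPc => ?_⟩
    have hn100 : 100 ≤ n := (le_max_left _ _).trans hn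
    have hX1 : n1 ≤ X := by
      rw [hX, Nat.le_sqrt']
      have : n1 ^ 2 ≤ n := (le_max_left _ _).trans ((le_max_right _ _).trans hn)
      omega
    have hX3 : n3 ≤ X := by
      rw [hX, Nat.le_sqrt']
      have : n3 ^ 2 ≤ n := (le_max_right _ _).trans ((le_max_right _ _).trans hn)
      omega
    have hL2 := hn3 X hX3
    have hX50 : 50 ≤ X := by
      rw [hX, Nat.le_sqrt']
      omega
    have hXsq : X ^ 2 ≤ 30 * n := by
      rw [hX]
      exact Nat.sqrt_le' _
    have hXr : (50 : ℝ) ≤ X := by exact_mod_cast hX50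
    -- the size of the primes
    have hpX : ∀ p ∈ P, p ≤ X ∧ X < 2 * p ∧ ∀ i, 1 ≤ (p : ℤ) + c i ∧ (p : ℤ) + c i ≤ 2 * X := by
      intro p hp
      obtain ⟨h1, h2, h3, h5⟩ := hP p hp
      have h6 : p ≤ X := by
        rw [hX, Nat.le_sqrt']
        exact h3
      have h7 : X < 2 * p := by
        by_contra hcon
        push Not at hcon
        have : (2 * p) ^ 2 ≤ X ^ 2 := Nat.pow_le_pow_left hcon 2
        nlinarith
      refine ⟨h6, h7, fun i => ?_⟩
      have h8 := hc i
      have h9 := abs_le.1 (show |c i| ≤ X / 2 by omega)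
      omega
    have key := hn1 X hX1 y hy1 hy2 P hPc (fun i p => ((p : ℤ) + c i).toNat) (by
        intro i a ha b hb hab
        have ha' := (hpX a (mem_coe.1 ha)).2.2 i
        have hb' := (hpX b (mem_coe.1 hb)).2.2 i
        simp only at hab
        omega) (by
        intro i p hp
        have h1 := (hpX p hp).2.2 i
        have h2 := (hP p hp).2.2.2 i
        refine ⟨by omega, ?_, ?_⟩
        · intro l hl hly hd
          apply h2 l hl hly
          have h3 : (((p : ℤ) + c i).toNat : ℤ) = (p : ℤ) + c i := Int.toNat_of_nonneg (by omega)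
          rw [← h3]
          exact_mod_cast hd
        · have h3 : ((p : ℤ) + c i).toNat ≤ 2 * X := by omega
          have h4 : ((((p : ℤ) + c i).toNat : ℕ) : ℝ) ≤ 2 * X := by exact_mod_cast h3
          rw [pow_one]
          nlinarith) g₀ G (fun i => by rw [pow_one]; exact hw i) (fun i => by rw [pow_one]; exact hG i)
    have hVz : Pool.Agent.H373R2.T7.Vz y = V y := rfl
    have e1 : V y * (((1 : ℕ) : ℝ) * Real.log X) = V y * Real.log X := by push_cast; ring
    simp only [prod_const, card_univ, Fintype.card_fin, hVz, e1] at key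
    refine le_trans ?_ key
    rw [Nat.cast_le]
    apply card_le_card
    intro g hg
    rw [mem_filter] at hg ⊢
    refine ⟨hg.1, lt_of_le_of_lt ?_ hg.2⟩
    rw [Nat.cast_le]
    apply card_le_card
    intro p hp
    rw [mem_filter] at hp
    unfold Good
    rw [mem_filter]
    obtain ⟨h1, h2, h3, -⟩ := hP p hp.1
    refine ⟨hp.1, ChenQuadruple.val h4 (by omega) h1 h2 h3, fun i => ?_⟩
    have h5 := hp.2 i
    have h6 := (hpX p hp.1).2.2 i
    rw [pow_one] at h5
    have h7 : ((p : ℤ) + c i + ((primorial y * (g₀ i + g i) : ℕ) : ℤ)).toNat =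
        ((p : ℤ) + c i).toNat + primorial y * (g₀ i + g i) := by
      rw [Int.toNat_add (by omega) (by positivity), Int.toNat_natCast]
    rw [h7]
    exact h5
  · obtain ⟨t, ht, c, hc, H1, -⟩ := ChenQuadruple.result
    obtain ⟨n0, h0⟩ := H1 (1 / 20) (by norm_num)
    refine ⟨t, ht, c / 120, by positivity, fun K₁ => ?_⟩
    have ht0 : (0 : ℝ) < 1 / (t : ℝ) := by
      have : (0 : ℝ) < t := by exact_mod_cast ht
      positivity
    -- growth
    have hev1 : ∀ᶠ x : ℝ in atTop, K₁ * Real.log (Real.log x) ≤ x ^ (1 / (t : ℝ)) := by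
      have h1 := (isLittleO_log_rpow_atTop ht0).bound (show (0 : ℝ) < 1 / (K₁ + 1) by positivity)
      have h2 := Real.tendsto_log_atTop.eventually_gt_atTop (1 : ℝ)
      filter_upwards [h1, h2, eventually_gt_atTop 1] with x h1 h2 h3
      rw [Real.norm_of_nonneg (by linarith), Real.norm_of_nonneg (by positivity)] at h1
      have h4 : Real.log (Real.log x) ≤ Real.log x := (Real.log_le_sub_one_of_pos (by linarith)).trans (by linarith)
      have h5 : (K₁ : ℝ) * Real.log (Real.log x) ≤ K₁ * Real.log x :=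
        mul_le_mul_of_nonneg_left h4 (Nat.cast_nonneg _)
      have h6 : (K₁ : ℝ) * Real.log x ≤ (K₁ + 1) * (1 / (K₁ + 1) * x ^ (1 / (t : ℝ))) := by
        have : (K₁ : ℝ) * Real.log x ≤ (K₁ + 1) * Real.log x := by nlinarith
        exact this.trans (mul_le_mul_of_nonneg_left h1 (by positivity))
      have h7 : ((K₁ : ℝ) + 1) * (1 / (K₁ + 1) * x ^ (1 / (t : ℝ))) = x ^ (1 / (t : ℝ)) := by
        field_simp
      linarith
    obtain ⟨x1, hx1⟩ := eventually_atTop.1 hev1
    obtain ⟨n3, hn3⟩ := Pool.Agent.H373R2.T7.ev_L' (16 * 120 / c)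
    refine ⟨max (max n0 10000) (max (⌈x1⌉₊ ^ 2) (n3 ^ 2)), fun n hn h4 X hX y hy j P hP => ?_⟩
    have hn0 : n0 ≤ n := (le_max_left _ _).trans ((le_max_left _ _).trans hn)
    have hn4 : 10000 ≤ n := (le_max_right _ _).trans ((le_max_left _ _).trans hn)
    have hXx : x1 ≤ X := by
      have h1 : ⌈x1⌉₊ ≤ X := by
        rw [hX, Nat.le_sqrt']
        have : ⌈x1⌉₊ ^ 2 ≤ n := (le_max_left _ _).trans ((le_max_right _ _).trans hn)
        omega
      exact (Nat.le_ceil _).trans (by exact_mod_cast h1)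
    have hX3 : n3 ≤ X := by
      rw [hX, Nat.le_sqrt']
      have : n3 ^ 2 ≤ n := (le_max_right _ _).trans ((le_max_right _ _).trans hn)
      omega
    have hL3 := hn3 X hX3
    have hXsq : X ^ 2 ≤ 30 * n := by
      rw [hX]
      exact Nat.sqrt_le' _
    have hXlt : 30 * n < (X + 1) ^ 2 := by
      rw [hX]
      exact Nat.lt_succ_sqrt' _
    obtain ⟨A, hA⟩ : ∃ A : ℕ, A = Nat.sqrt (29 * n) + 1 := ⟨_, rfl⟩
    rw [← hA] at hP
    have hA1 : 29 * n ≤ A ^ 2 := by
      rw [hA]
      exact (Nat.lt_succ_sqrt' _).le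
    have hA2 : (A - 1) ^ 2 ≤ 29 * n := by
      rw [hA, Nat.add_sub_cancel]
      exact Nat.sqrt_le' _
    have hA0 : 1 ≤ A := by omega
    have hnr : (10000 : ℝ) ≤ n := by exact_mod_cast hn4
    have hs : (100 : ℝ) ≤ √(n : ℝ) := by
      apply Real.le_sqrt_of_sq_le
      norm_num
      exact_mod_cast hn4
    have hss : √(n : ℝ) ^ 2 = n := Real.sq_sqrt (by linarith)
    have hXu : (X : ℝ) ≤ 6 * √(n : ℝ) := by
      have h1 : (X : ℝ) ^ 2 ≤ 30 * n := by exact_mod_cast hXsq
      have h2 : (X : ℝ) ^ 2 ≤ (6 * √(n : ℝ)) ^ 2 := by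
        rw [mul_pow, hss]
        linarith
      exact le_of_pow_le_pow_left₀ (by norm_num) (by positivity) h2
    have hXl : 5.477 * √(n : ℝ) - 1 ≤ X := by
      have h1 : (30 : ℝ) * n < ((X : ℝ) + 1) ^ 2 := by exact_mod_cast hXlt
      have h2 : (5.477 * √(n : ℝ)) ^ 2 ≤ ((X : ℝ) + 1) ^ 2 := by
        rw [mul_pow, hss]
        nlinarith
      have := le_of_pow_le_pow_left₀ (show 2 ≠ 0 by norm_num) (by positivity) h2
      linarith
    have hAu : (A : ℝ) ≤ 5.386 * √(n : ℝ) + 1 := by
      have h1 : ((A - 1 : ℕ) : ℝ) ^ 2 ≤ 29 * n := by exact_mod_cast hA2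
      rw [Nat.cast_sub hA0] at h1
      have h2 : ((A : ℝ) - ((1 : ℕ) : ℝ)) ^ 2 ≤ (5.386 * √(n : ℝ)) ^ 2 := by
        rw [mul_pow, hss]
        exact h1.trans (mul_le_mul_of_nonneg_right (by norm_num) (by linarith))
      have := abs_le_of_sq_le_sq' h2 (by positivity)
      push_cast at this
      linarith [this.2]
    have hBA : 1 / 20 * √(n : ℝ) ≤ (X : ℝ) - A := by nlinarith
    have hcard := h0 n hn0 h4 A X hA1 hXsq hBA j
    rw [← hP] at hcard
    have hX0 : (0 : ℝ) < X := by nlinarith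
    have hX1 : (1 : ℝ) < X := by nlinarith
    have hlX : 0 < Real.log X := Real.log_pos hX1
    have hln : 0 < Real.log n := Real.log_pos (by linarith)
    have hκ : c / 120 * X / Real.log n ^ 4 ≤ P.card := by
      refine le_trans ?_ hcard
      apply div_le_div_of_nonneg_right _ (by positivity)
      nlinarith
    refine ⟨?_, hκ, ?_⟩
    · intro p hp
      rw [hP] at hp
      unfold ChenQuadruple.P at hp
      rw [mem_filter, mem_Ioc, ← hX] at hp
      obtain ⟨⟨hp1, hp2⟩, hp3, -, -, -, hp4⟩ := hp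
      refine ⟨hp3, hA1.trans (Nat.pow_le_pow_left hp1.le 2), (Nat.pow_le_pow_left hp2 2).trans hXsq, ?_⟩
      intro i l hl hly hd
      have h1 := (hp4 i).2.2 l hl (by
        have e : ChenQuadruple.num p i = (p : ℤ) + quad i := by
          unfold ChenQuadruple.num quad
          fin_cases i
          · show (p : ℤ) - 2 = p + -2
            ring
          · rfl
          · rfl
        rw [e]
        exact hd)
      have h2 : (l : ℝ) ≤ y := by exact_mod_cast hly
      have h3 := hx1 X hXx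
      linarith
    · have h1 : Real.log n ≤ 2 * Real.log X := by
        rw [← Real.log_rpow hX0]
        apply Real.log_le_log (by linarith)
        have h2 : (n : ℝ) ≤ (X : ℝ) ^ 2 := by nlinarith
        exact_mod_cast h2
      have h2 : Real.log n ^ 4 ≤ 16 * Real.log X ^ 4 := by
        calc Real.log n ^ 4 ≤ (2 * Real.log X) ^ 4 := pow_le_pow_left₀ hln.le h1 4
          _ = 16 * Real.log X ^ 4 := by ring
      rw [div_le_iff₀ (by positivity)] at hκ
      have h3 : 16 ≤ c / 120 * Real.log X := by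
        rw [div_le_iff₀ hc] at hL3
        linarith
      have h4 : (X : ℝ) * 16 ≤ P.card * Real.log X ^ 5 * 16 := by
        calc (X : ℝ) * 16 ≤ X * (c / 120 * Real.log X) := mul_le_mul_of_nonneg_left h3 hX0.le
          _ = c / 120 * X * Real.log X := by ring
          _ ≤ (P.card * Real.log n ^ 4) * Real.log X := mul_le_mul_of_nonneg_right hκ hlX.le
          _ ≤ (P.card * (16 * Real.log X ^ 4)) * Real.log X := by gcongr
          _ = P.card * Real.log X ^ 5 * 16 := by ring
      linarith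

end Pool.Agent.Results.MP_40574a_nt.AlmostAllShiftVectors
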