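import Pool.Agent.X69.Ric.PackV
import Pool.Agent.H141R2.FS.Main1

/-!
# The gaps between the values `x + 2 y + 5 z` that start a prime or almost prime quadruple, for every `n`

For every large `n` not divisible by `4` and every interval `(X, X + Y]`, `Y ≥ X ^ θ`, in `[√(29 n), √(30 n)]`
consider the numbers `p = x + 2 y + 5 z` belonging to representations `n = x ^ 2 + y ^ 2 + z ^ 2 + w ^ 2` for which
`p - 2`, `p`, `p + 4`, `p + 10` have at most `r` prime factors each, all larger than `p ^ (1 / r)`. For every `m`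
a positive proportion of all vectors of `m` positive integers up to `K (log X) ^ 4` are vectors of `m` consecutive
gaps between these numbers, each of them at least `κ Y / (log X) ^ (4 (m + 1))` times. The same holds for the
admissible representations of the problem (the four numbers prime), if there are at least `c Y / (log X) ^ 4`
values `p`.
-/

set_option autoImplicit false

namespace Pool.Agent.Results.MP_40574a_nt.GapVectorsRepresentations

open Filter

/-- `p` is the value of `x + 2 y + 5 z` at a representation of `n` as a sum of four squares. -/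
def Rep (n p : ℕ) : Prop :=
  ∃ x y z w : ℕ, n = x ^ 2 + y ^ 2 + z ^ 2 + w ^ 2 ∧ p = x + 2 * y + 5 * z

/-- The four numbers `p - 2`, `p`, `p + 4`, `p + 10`. -/
def num (p : ℕ) : Fin 4 → ℕ := ![p - 2, p, p + 4, p + 10]

/-- The values `p` of the admissible representations of `n`. -/
def Admissible (n : ℕ) : Set ℕ := {p | Rep n p ∧ ∀ i, (num p i).Prime}

/-- The values `p` for which the four numbers have at most `r` prime factors, counted with multiplicity, all of
them larger than `p ^ (1 / r)`. -/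
def Almost (n r : ℕ) : Set ℕ :=
  {p | Rep n p ∧ ∀ i, ArithmeticFunction.cardFactors (num p i) ≤ r ∧
    ∀ q : ℕ, q.Prime → q ∣ num p i → (p : ℝ) ^ (1 / (r : ℝ)) < q}

/-- `h` is the vector of the `m` gaps of `A` that follow `p`: all `h i` are positive and the elements of `A`
between `p` and `p + h 0 + ... + h (m - 1)` are exactly `p`, `p + h 0`, `p + h 0 + h 1`, .... -/
def NextGaps (A : Set ℕ) {m : ℕ} (h : Fin m → ℕ) (p : ℕ) : Prop :=
  (∀ i, 0 < h i) ∧ ∀ x, (x ∈ A ∧ p ≤ x ∧ x ≤ p + ∑ i, h i) ↔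
    ∃ j : ℕ, j ≤ m ∧ x = p + ∑ i ∈ Finset.univ.filter (fun i : Fin m => (i : ℕ) < j), h i

/-- The number of the elements of `A` in `(X, X + Y]` after which `h` is the vector of the next `m` gaps. -/
noncomputable def freq (A : Set ℕ) (X Y : ℕ) {m : ℕ} (h : Fin m → ℕ) : ℕ :=
  {p | p ∈ A ∧ p ∈ Set.Ioc X (X + Y) ∧ NextGaps A h p}.ncard

/-- The number of the vectors `h` of `m` positive integers up to `K (log X) ^ 4` that are the vector of the next
`m` gaps for at least `κ Y / (log X) ^ (4 (m + 1))` elements of `A` in `(X, X + Y]`. -/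
noncomputable def frequent (A : Set ℕ) (X Y m : ℕ) (K κ : ℝ) : ℕ :=
  {h : Fin m → ℕ | (∀ i, 0 < h i ∧ (h i : ℝ) ≤ K * Real.log X ^ 4) ∧
    κ * Y / Real.log X ^ (4 * (m + 1)) ≤ (freq A X Y h : ℝ)}.ncard

/-- the polynomials -/
noncomputable def F : Fin 4 → Polynomial ℤ := fun i =>
  Pool.Agent.W182.PW.lin ((![1, 1, 1, 1] : Fin 4 → ℕ) i) ((![-2, 0, 4, 10] : Fin 4 → ℤ) i)

theorem F_eval (p : ℕ) (hp : 2 ≤ p) (i : Fin 4) : (F i).eval (p : ℤ) = (num p i : ℤ) := by
  unfold F num
  rw [Pool.Agent.W182.PW.lin_eval]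
  fin_cases i
  · simp [Nat.cast_sub hp]
    ring
  · simp
  · simp
  · simp

theorem sys : Pool.Agent.W123.RU.Poly.Sys F := by
  refine Pool.Agent.TH977.PW.sys_lin (ι := Fin 4) ![1, 1, 1, 1] ![-2, 0, 4, 10] (by decide) ?_ (by decide) ?_
  · intro i
    fin_cases i <;> exact isCoprime_one_left
  · intro p hp
    by_cases h5 : p = 5
    · refine ⟨3, ?_⟩
      rw [h5]
      decide
    · by_cases h11 : p = 11
      · refine ⟨3, ?_⟩
        rw [h11]
        decide
      · refine ⟨1, ?_⟩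
        intro i
        fin_cases i
        · intro h
          simp at h
          exact hp.one_lt.ne' (Nat.dvd_one.1 (by exact_mod_cast h))
        · intro h
          simp at h
          exact hp.one_lt.ne' (by exact_mod_cast Int.natAbs_dvd_natAbs.2 h |> Nat.dvd_one.1)
        · intro h
          simp at h
          have h4 : p ∣ 5 := by exact_mod_cast h
          exact h5 ((Nat.prime_dvd_prime_iff_eq hp Nat.prime_five).1 h4)
        · intro h
          simp at h
          have h4 : p ∣ 11 := by exact_mod_cast h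
          exact h11 ((Nat.prime_dvd_prime_iff_eq hp (by norm_num)).1 h4)

/-- **The gaps between the values of `x + 2 y + 5 z`.** -/
theorem result (m : ℕ) (hm : 1 ≤ m) :
    (∀ θ : ℝ, 0 < θ → θ ≤ 1 → ∃ r₀ : ℕ, 2 ≤ r₀ ∧ ∀ r : ℕ, r₀ ≤ r → ∃ K : ℝ, 0 < K ∧ ∃ κ : ℝ, 0 < κ ∧
      ∀ᶠ n : ℕ in atTop, ¬ 4 ∣ n → ∀ X Y : ℕ, 29 * n ≤ X ^ 2 → (X + Y) ^ 2 ≤ 30 * n → (X : ℝ) ^ θ ≤ Y →
        κ * Real.log X ^ (4 * m) ≤ (frequent (Almost n r) X Y m K κ : ℝ)) ∧
    ∀ θ c : ℝ, 0 < θ → 0 < c → ∃ K : ℝ, 0 < K ∧ ∃ κ : ℝ, 0 < κ ∧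
      ∀ᶠ n : ℕ in atTop, ∀ X Y : ℕ, 29 * n ≤ X ^ 2 → (X + Y) ^ 2 ≤ 30 * n → (X : ℝ) ^ θ ≤ Y →
        c * Y / Real.log X ^ 4 ≤ ((Admissible n ∩ Set.Ioc X (X + Y)).ncard : ℝ) →
        κ * Real.log X ^ (4 * m) ≤ (frequent (Admissible n) X Y m K κ : ℝ) := by
  have hbig : ∀ X₀ : ℕ, ∀ᶠ n : ℕ in atTop, ∀ X : ℕ, 29 * n ≤ X ^ 2 → X₀ ≤ X := by
    intro X₀
    filter_upwards [eventually_ge_atTop (X₀ ^ 2)] with n hn X hX
    by_contra hcon
    push Not at hcon
    have h1 : X ^ 2 < X₀ ^ 2 := Nat.pow_lt_pow_left hcon (by norm_num)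
    omega
  constructor
  · intro θ hθ hθ1
    obtain ⟨r₀, hr₀, h⟩ := Pool.Agent.X69.Ric.sys_almost_short F sys θ hθ hθ1
    refine ⟨r₀, hr₀, fun r hr => ?_⟩
    obtain ⟨c, hc, h1⟩ := h r hr
    have hrpos : (0 : ℝ) < r := by exact_mod_cast (by omega : 0 < r)
    have hr0 : (0 : ℝ) < 1 / r := by positivity
    obtain ⟨K, hK, κ, hκ, h2⟩ := Pool.Agent.X69.Ric.sys_frq F (by norm_num) sys (1 / r) θ c hr0 hθ hc m hm
    refine ⟨K, hK, κ, hκ, ?_⟩
    obtain ⟨X₁, hX₁⟩ := eventually_atTop.1 (h1.and h2)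
    have hpow : ∀ᶠ X : ℕ in atTop, (5 : ℝ) ≤ (X : ℝ) ^ (1 / (r : ℝ)) :=
      ((tendsto_rpow_atTop hr0).comp tendsto_natCast_atTop_atTop).eventually_ge_atTop _
    obtain ⟨X₂, hX₂⟩ := eventually_atTop.1 hpow
    filter_upwards [hbig (max (max X₁ X₂) 5)] with n hn h4 X Y hX1 hX2 hXY
    have hX := hn X hX1
    obtain ⟨h5, h6⟩ := hX₁ X (((le_max_left _ _).trans (le_max_left _ _)).trans hX)
    have h7 := hX₂ X (((le_max_right _ _).trans (le_max_left _ _)).trans hX)
    have h8 : 5 ≤ X := (le_max_right _ _).trans hX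
    have hYX : Y ≤ X := by
      by_contra hcon
      push Not at hcon
      have h9 : (2 * X) ^ 2 ≤ (X + Y) ^ 2 := Nat.pow_le_pow_left (by omega) 2
      have h10 : (2 * X) ^ 2 = 4 * X ^ 2 := by ring
      have h11 : 0 < X ^ 2 := by positivity
      omega
    refine h6 X Y hXY (Almost n r) ?_ ?_
    · intro p hp hpI i q hq hd
      have hp2 : 2 ≤ p := by have := hpI.1; omega
      rw [F_eval p hp2] at hd
      refine le_trans ?_ ((hp.2 i).2 q hq (Int.natCast_dvd_natCast.1 hd)).le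
      apply Real.rpow_le_rpow (Nat.cast_nonneg _) _ hr0.le
      exact_mod_cast hpI.1.le
    · refine (h5 Y hXY hYX).trans ?_
      apply Nat.cast_le.2
      apply Set.ncard_le_ncard _ ((Set.finite_Ioc X (X + Y)).subset Set.inter_subset_right)
      rintro p ⟨hpI, hp⟩
      have hp2 : 2 ≤ p := by have := hpI.1; omega
      have hnum : ∀ i, ArithmeticFunction.cardFactors (num p i) ≤ r ∧
          ∀ q : ℕ, q.Prime → q ∣ num p i → (p : ℝ) ^ (1 / (r : ℝ)) < q := by
        intro i
        obtain ⟨h9, h10⟩ := hp i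
        rw [F_eval p hp2, Int.natAbs_natCast] at h9
        refine ⟨h9, fun q hq hd => h10 q hq ?_⟩
        rw [F_eval p hp2]
        exact Int.natCast_dvd_natCast.2 hd
      refine ⟨⟨?_, hnum⟩, hpI⟩
      have hcop : Nat.Coprime p 30 := by
        rw [Nat.coprime_comm]
        apply Nat.Coprime.symm
        apply Nat.coprime_of_dvd
        intro q hq hqp hq30
        have h9 := (hnum 1).2 q hq hqp
        have h10 : (5 : ℝ) < q := by
          refine lt_of_le_of_lt (h7.trans ?_) h9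
          apply Real.rpow_le_rpow (Nat.cast_nonneg _) _ hr0.le
          exact_mod_cast hpI.1.le
        have h11 : 5 < q := by exact_mod_cast h10
        have h12 : q ≤ 30 := Nat.le_of_dvd (by norm_num) hq30
        interval_cases q <;> first | omega | (exact absurd hq (by norm_num))
      have h9 : 29 * n ≤ p ^ 2 := hX1.trans (Nat.pow_le_pow_left hpI.1.le 2)
      have h10 : p ^ 2 ≤ 30 * n := (Nat.pow_le_pow_left hpI.2 2).trans hX2
      obtain ⟨x, y, z, w, h11, h12⟩ := Pool.Agent.H141R2.FS.rep h4 hcop h9 h10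
      exact ⟨x, y, z, w, h11, h12.symm⟩
  · intro θ c hθ hc
    obtain ⟨K, hK, κ, hκ, h2⟩ := Pool.Agent.X69.Ric.sys_frq F (by norm_num) sys (1 / 2) θ c (by norm_num) hθ hc m hm
    refine ⟨K, hK, κ, hκ, ?_⟩
    obtain ⟨X₁, hX₁⟩ := eventually_atTop.1 h2
    filter_upwards [hbig (max X₁ 5)] with n hn X Y hX1 hX2 hXY hlow
    have hX := hn X hX1
    have h6 := hX₁ X ((le_max_left _ _).trans hX)
    have h8 : 5 ≤ X := (le_max_right _ _).trans hX
    refine h6 X Y hXY (Admissible n) ?_ hlow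
    intro p hp hpI i q hq hd
    have hp2 : 2 ≤ p := by have := hpI.1; omega
    rw [F_eval p hp2] at hd
    have h9 := (Nat.prime_dvd_prime_iff_eq hq (hp.2 i)).1 (Int.natCast_dvd_natCast.1 hd)
    have h10 : X ≤ q + 1 := by
      rw [h9]
      have h11 : p - 2 ≤ num p i := by
        unfold num
        fin_cases i <;> simp <;> omega
      have := hpI.1
      omega
    have hXr : (5 : ℝ) ≤ X := by exact_mod_cast h8
    have h11 : (X : ℝ) ≤ q + 1 := by exact_mod_cast h10
    have h12 : (X : ℝ) ^ (1 / 2 : ℝ) ≤ X - 1 := by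
      rw [← Real.sqrt_eq_rpow, Real.sqrt_le_left (by linarith)]
      nlinarith
    linarith

end Pool.Agent.Results.MP_40574a_nt.GapVectorsRepresentations
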