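import Pool.Agent.X37.FS.Cmp
import Pool.Agent.Results.MP_40574a_nt.LinearFormValues

/-!
# MP_40574a_nt: all almost prime patterns up to Rankin's scale, with all members values of the linear form

For every large `n` with `4 ∤ n` and every admissible set `T` of `k` shifts up to a constant times Rankin's function
of `n` there are at least `n ^ (1/4)` numbers `m` for which all `m + t`, `t ∈ T`, are almost primes and values of
`x + 2 y + 5 z` at representations `n = x² + y² + z² + w²` by natural numbers, while all other numbers in this range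
after `m` have a prime factor at most `log n`. For `T = {0, 2, 6, 12}`: isolated almost prime quadruples
`p - 2, p, p + 4, p + 10`.
-/

set_option autoImplicit false

namespace Pool.Agent.Results.MP_40574a_nt.PatternsToRankin

open Filter

/-- `p` is the value of `x + 2 y + 5 z` at a representation `n = x ^ 2 + y ^ 2 + z ^ 2 + w ^ 2` with natural
numbers `x, y, z, w`. -/
def Val (n p : ℕ) : Prop := ∃ x y z w : ℕ, n = x ^ 2 + y ^ 2 + z ^ 2 + w ^ 2 ∧ p = x + 2 * y + 5 * z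

/-- Rankin's function `log n log₂ n log₄ n / (log₃ n)²` -/
noncomputable def R (n : ℕ) : ℝ :=
  Real.log n * Real.log (Real.log n) * Real.log (Real.log (Real.log (Real.log n))) /
    (Real.log (Real.log (Real.log n))) ^ 2

open Pool.Agent.X37.RD Pool.Agent.X37.FS

lemma interval : ∀ᶠ n : ℕ in atTop, (Nat.sqrt (29 * n) + 2 * (Nat.sqrt n / 24)) ^ 2 ≤ 30 * n ∧
    n ≤ (Nat.sqrt n / 24) ^ 3 ∧ Nat.sqrt (29 * n) ≤ (Nat.sqrt n / 24) ^ 2 := by
  filter_upwards [eventually_ge_atTop 1000000000000] with n hn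
  obtain ⟨s, hs⟩ : ∃ s, s = Nat.sqrt n := ⟨_, rfl⟩
  obtain ⟨a, ha⟩ : ∃ a, a = Nat.sqrt (29 * n) := ⟨_, rfl⟩
  obtain ⟨N, hN⟩ : ∃ N, N = s / 24 := ⟨_, rfl⟩
  rw [← hs, ← ha, ← hN]
  have h1 : s ^ 2 ≤ n := by rw [hs]; exact Nat.sqrt_le' n
  have h2 : n < (s + 1) ^ 2 := by rw [hs]; exact Nat.lt_succ_sqrt' n
  have h3 : a ^ 2 ≤ 29 * n := by rw [ha]; exact Nat.sqrt_le' _
  have h4 : 24 * N ≤ s := by rw [hN]; omega
  have h5 : s < 24 * N + 24 := by rw [hN]; omega
  have hs6 : 999999 ≤ s := by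
    by_contra hlt
    push Not at hlt
    have : (s + 1) ^ 2 ≤ 999999 ^ 2 := Nat.pow_le_pow_left (by omega) 2
    omega
  have ha2 : 10 * a ≤ 54 * (s + 1) := by
    by_contra hlt
    push Not at hlt
    have h6 : (54 * (s + 1)) ^ 2 < (10 * a) ^ 2 := Nat.pow_lt_pow_left hlt (by norm_num)
    have h7 : (10 * a) ^ 2 = 100 * a ^ 2 := by ring
    have h8 : (54 * (s + 1)) ^ 2 = 2916 * (s + 1) ^ 2 := by ring
    omega
  refine ⟨?_, ?_, ?_⟩
  · have e : (a + 2 * N) ^ 2 = a ^ 2 + (4 * a * N + 4 * N ^ 2) := by ring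
    rw [e]
    have h6 : 4 * a * N + 4 * N ^ 2 ≤ n := by
      refine le_trans ?_ h1
      have g1 : 240 * (a * N) ≤ 54 * (s + 1) * s := by
        calc 240 * (a * N) = (10 * a) * (24 * N) := by ring
          _ ≤ (54 * (s + 1)) * s := Nat.mul_le_mul ha2 h4
      have g2 : 576 * N ^ 2 ≤ s ^ 2 := by
        calc 576 * N ^ 2 = (24 * N) ^ 2 := by ring
          _ ≤ s ^ 2 := Nat.pow_le_pow_left h4 2
      have g3 : 54 * (s + 1) * s ≤ 55 * s ^ 2 := by nlinarith
      nlinarith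
    omega
  · have h6 : s ≤ 25 * N := by omega
    have hN6 : 39999 ≤ N := by omega
    calc n ≤ (s + 1) ^ 2 := h2.le
      _ ≤ (26 * N) ^ 2 := Nat.pow_le_pow_left (by omega) 2
      _ = 676 * N ^ 2 := by ring
      _ ≤ N * N ^ 2 := Nat.mul_le_mul_right _ (by omega)
      _ = N ^ 3 := by ring
  · have h6 : s ≤ 25 * N := by omega
    have hN6 : 39999 ≤ N := by omega
    calc a ≤ 10 * a := by omega
      _ ≤ 54 * (s + 1) := ha2
      _ ≤ 54 * (26 * N) := by omega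
      _ = 1404 * N := by ring
      _ ≤ N * N := Nat.mul_le_mul_right _ (by omega)
      _ = N ^ 2 := by ring

theorem result (k : ℕ) (hk : 1 ≤ k) : ∃ c : ℝ, 0 < c ∧ ∃ r : ℕ, ∀ᶠ n : ℕ in atTop, ¬ 4 ∣ n →
    ∀ T : Finset ℕ, T.card = k → (∀ p : ℕ, p.Prime → ∃ a : ℕ, ∀ t ∈ T, ¬ p ∣ a + t) →
    (∀ t ∈ T, (t : ℝ) ≤ c * R n) →
    (n : ℝ) ^ (1 / 4 : ℝ) ≤ ({m : ℕ |
      (∀ t ∈ T, Val n (m + t) ∧ (∀ p : ℕ, p.Prime → p ∣ m + t → n < p ^ r) ∧ (m + t).primeFactorsList.length ≤ r) ∧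
      ∀ s : ℕ, (s : ℝ) ≤ c * R n → s ∉ T → ∃ p : ℕ, p.Prime ∧ (p : ℝ) ≤ Real.log n ∧ p ∣ m + s}.ncard : ℝ) := by
  classical
  obtain ⟨c₁, hc₁, r₁, hr₁, hrec⟩ := record_ap k 2 hk
  obtain ⟨N₁, hrec⟩ := eventually_atTop.1 hrec
  obtain ⟨c, hc⟩ : ∃ c, c = c₁ / 12 := ⟨_, rfl⟩
  have hc0 : 0 < c := by rw [hc]; positivity
  have hfac := recfacts 1 1 c₁ one_pos 1
  obtain ⟨N₂, hfac⟩ := eventually_atTop.1 hfac
  obtain ⟨V, hV⟩ : ∃ V : ℕ, V = 5 ^ r₁ := ⟨_, rfl⟩
  refine ⟨c, hc0, 3 * r₁, ?_⟩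
  filter_upwards [interval, RR_cmp 3 (by norm_num), eventually_ge_atTop ((N₁ + N₂ + V + 10) ^ 3)] with
    n h1 h2 h3 h4 T hT hadm hTle
  obtain ⟨g1, g2, g3⟩ := h1
  obtain ⟨N, hN⟩ : ∃ N, N = Nat.sqrt n / 24 := ⟨_, rfl⟩
  rw [← hN] at g1 g2 g3
  obtain ⟨x, hx⟩ : ∃ x, x = Nat.sqrt (29 * n) := ⟨_, rfl⟩
  rw [← hx] at g1 g3
  have hNbig : N₁ + N₂ + V + 10 ≤ N := by
    by_contra hlt
    push Not at hlt
    have : N ^ 3 < (N₁ + N₂ + V + 10) ^ 3 := Nat.pow_lt_pow_left hlt (by norm_num)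
    omega
  have hNn : N ≤ n := by
    rw [hN]
    exact (Nat.div_le_self _ _).trans (Nat.sqrt_le_self n)
  have hR := h2 N g2 hNn
  have hRn : RR n = R n := rfl
  rw [hRn] at hR
  have hcR : c * R n ≤ c₁ * RR N := by
    push_cast at hR
    rw [hc]
    calc c₁ / 12 * R n = c₁ * (R n / (4 * 3)) := by ring
      _ ≤ c₁ * RR N := by gcongr
  have hN0 : (0 : ℝ) < N := by exact_mod_cast (by omega : 0 < N)
  have hn0 : (0 : ℝ) < n := lt_of_lt_of_le hN0 (by exact_mod_cast hNn)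
  obtain ⟨f1, f2, f3, f4, f5, f6, f7, f8⟩ := hfac N (by omega)
  -- `c₁ RR N ≤ N`
  have hRRN : c₁ * RR N ≤ N := by
    refine le_trans ?_ f5
    apply mul_le_mul_of_nonneg_left _ hc₁.le
    have e0 : 0 < Real.log N := by linarith
    unfold RR
    rw [div_le_iff₀ (by positivity)]
    obtain ⟨L, hL⟩ : ∃ L, L = Real.log N := ⟨_, rfl⟩
    rw [← hL] at f1 f2 f3 f4 e0 ⊢
    have e1 : Real.log L ≤ L := Real.log_le_self e0.le
    have e2 : Real.log (Real.log (Real.log L)) ≤ Real.log (Real.log L) := Real.log_le_self (by linarith)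
    have e3 : Real.log (Real.log L) ≤ (Real.log (Real.log L)) ^ 2 := by nlinarith
    have e4 : 0 ≤ Real.log (Real.log (Real.log L)) := by linarith
    calc L * Real.log L * Real.log (Real.log (Real.log L)) ≤ L * L * (Real.log (Real.log L)) ^ 2 := by
          gcongr
          linarith
      _ = L ^ 2 * (Real.log (Real.log L)) ^ 2 := by ring
  have hmain := hrec N (by omega) x g3 T hT hadm (fun t ht => (hTle t ht).trans hcR)
  have hpow : (n : ℝ) ^ (1 / 4 : ℝ) ≤ (N : ℝ) ^ (4 / 5 : ℝ) := by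
    have e1 : (n : ℝ) ≤ (N : ℝ) ^ (3 : ℝ) := by
      have e2 : (N : ℝ) ^ (3 : ℝ) = (N : ℝ) ^ 3 := by
        rw [← Real.rpow_natCast]; norm_num
      rw [e2]
      exact_mod_cast g2
    calc (n : ℝ) ^ (1 / 4 : ℝ) ≤ ((N : ℝ) ^ (3 : ℝ)) ^ (1 / 4 : ℝ) := Real.rpow_le_rpow hn0.le e1 (by norm_num)
      _ = (N : ℝ) ^ (3 / 4 : ℝ) := by rw [← Real.rpow_mul hN0.le]; norm_num
      _ ≤ _ := Real.rpow_le_rpow_of_exponent_le (by exact_mod_cast (by omega : 1 ≤ N)) (by norm_num)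
  refine hpow.trans (hmain.trans ?_)
  have hx2 : 29 * n ≤ (x + 1) ^ 2 := by
    rw [hx]
    exact (Nat.lt_succ_sqrt' (29 * n)).le
  have hxle : x ≤ 30 * n := by
    by_contra hlt
    push Not at hlt
    have : x * 1 ≤ x ^ 2 := by rw [pow_two]; exact Nat.mul_le_mul_left _ (by omega)
    have h5 : x ^ 2 ≤ (x + 2 * N) ^ 2 := Nat.pow_le_pow_left (by omega) 2
    omega
  apply Nat.cast_le.2
  obtain ⟨W, hW⟩ : ∃ W : Set ℕ, W = {m : ℕ | (x < m ∧ m ≤ x + N) ∧
      (∀ t ∈ T, (∀ p : ℕ, p.Prime → p ∣ m + t → N < p ^ r₁) ∧ (m + t).primeFactorsList.length ≤ r₁) ∧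
      ∀ s : ℕ, (s : ℝ) ≤ c₁ * RR N → s ∉ T →
        ∃ p : ℕ, p.Prime ∧ (p : ℝ) ≤ Real.log N ∧ p ∣ m + s} := ⟨_, rfl⟩
  rw [← hW]
  have hTne : ∃ t, t ∈ T := by
    have : 0 < T.card := by omega
    exact Finset.card_pos.1 this
  apply Set.ncard_le_ncard
  · intro m hm
    rw [hW] at hm
    obtain ⟨⟨m1, m2⟩, m3, m4⟩ := hm
    refine ⟨fun t ht => ?_, fun s hs hsT => ?_⟩
    · obtain ⟨q1, q2⟩ := m3 t ht
      have htN : t ≤ N := by
        have : (t : ℝ) ≤ N := ((hTle t ht).trans hcR).trans hRRN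
        exact_mod_cast this
      refine ⟨?_, ?_, by omega⟩
      · apply LinearFormValues.result n (m + t) h4
        · -- coprime to 30
          rw [Nat.Coprime]
          by_contra hg
          obtain ⟨q, hq, hqd⟩ := Nat.exists_prime_and_dvd hg
          have h6 := q1 q hq (hqd.trans (Nat.gcd_dvd_left _ _))
          have h7 : q ∣ 2 * (3 * 5) := by
            have := hqd.trans (Nat.gcd_dvd_right _ _)
            simpa using this
          have h8 : q ≤ 5 := by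
            rcases (Nat.Prime.dvd_mul hq).1 h7 with h9 | h9
            · have := Nat.le_of_dvd (by norm_num) h9
              omega
            · rcases (Nat.Prime.dvd_mul hq).1 h9 with h9 | h9
              · have := Nat.le_of_dvd (by norm_num) h9
                omega
              · have := Nat.le_of_dvd (by norm_num) h9
                omega
          have h9 : q ^ r₁ ≤ V := by rw [hV]; exact Nat.pow_le_pow_left h8 r₁
          omega
        · exact hx2.trans (Nat.pow_le_pow_left (by omega) 2)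
        · exact (Nat.pow_le_pow_left (by omega) 2).trans g1
      · intro p hp hpd
        have h6 := q1 p hp hpd
        calc n ≤ N ^ 3 := g2
          _ < (p ^ r₁) ^ 3 := Nat.pow_lt_pow_left h6 (by norm_num)
          _ = p ^ (3 * r₁) := by rw [← pow_mul, mul_comm]
    · obtain ⟨q, hq, hq1, hq2⟩ := m4 s (hs.trans hcR) hsT
      refine ⟨q, hq, hq1.trans ?_, hq2⟩
      apply Real.log_le_log hN0
      exact_mod_cast hNn
  · obtain ⟨t, ht⟩ := hTne
    apply Set.Finite.subset (Set.finite_Iic (6 * n + 30 * n))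
    intro m hm
    obtain ⟨⟨a, b, c', d, e1, e2⟩, _, _⟩ := hm.1 t ht
    rw [Set.mem_Iic]
    have i1 : a ≤ a ^ 2 := Nat.le_self_pow (by norm_num) a
    have i2 : b ≤ b ^ 2 := Nat.le_self_pow (by norm_num) b
    have i3 : c' ≤ c' ^ 2 := Nat.le_self_pow (by norm_num) c'
    omega

end Pool.Agent.Results.MP_40574a_nt.PatternsToRankin
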